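import Pool.Agent.H620R2.Gauge.Base
import Pool.Agent.H620R2.Gauge.A2

/-!
# The parity language is in polynomial space relative to the oracle
-/

namespace Pool.Agent.H620R2.Gauge

open Pool.Agent.NPC Pool.Agent.H622R2

namespace PTask

/-! ### Adding one -/

/-- one step of the addition, with a carry -/
def incStep (s : Bool × List Bool) (b : Bool) : Bool × List Bool :=
  (s.1 && b, (s.1 ^^ b) :: s.2)

/-- adding one to a string of binary digits, the lowest digit first -/
def inc (w : List Bool) : List Bool := (w.foldl incStep (true, [])).2.reverse

theorem foldl_false : ∀ (w acc : List Bool),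
    w.foldl incStep (false, acc) = (false, w.reverse ++ acc)
  | [], acc => by simp
  | b :: w, acc => by
    rw [List.foldl_cons]
    have h : incStep (false, acc) b = (false, b :: acc) := by simp [incStep]
    rw [h, foldl_false w (b :: acc)]
    simp

theorem foldl_true : ∀ (w acc : List Bool),
    (w.foldl incStep (true, acc)).2 = (w.foldl incStep (true, [])).2 ++ acc
  | [], acc => by simp
  | b :: w, acc => by
    rw [List.foldl_cons, List.foldl_cons]
    cases b
    · have h : ∀ acc, incStep (true, acc) false = (false, true :: acc) := by
        intro acc; simp [incStep]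
      rw [h, h, foldl_false, foldl_false]
      simp
    · have h : ∀ acc, incStep (true, acc) true = (true, false :: acc) := by
        intro acc; simp [incStep]
      rw [h, h, foldl_true w (false :: acc), foldl_true w [false]]
      simp

theorem inc_nil : inc [] = [] := rfl

theorem inc_false (w : List Bool) : inc (false :: w) = true :: w := by
  unfold inc
  rw [List.foldl_cons]
  have h : incStep (true, []) false = (false, [true]) := by simp [incStep]
  rw [h, foldl_false]
  simp

theorem inc_true (w : List Bool) : inc (true :: w) = false :: inc w := by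
  unfold inc
  rw [List.foldl_cons]
  have h : incStep (true, []) true = (true, [false]) := by simp [incStep]
  rw [h, foldl_true w [false]]
  simp

theorem foldl_length : ∀ (w : List Bool) (s : Bool × List Bool),
    (w.foldl incStep s).2.length = w.length + s.2.length
  | [], s => by simp
  | b :: w, s => by
    rw [List.foldl_cons, foldl_length w]
    simp [incStep]
    omega

theorem poly_incStep : Poly (fun p : List Bool × (Bool × List Bool) × Bool =>
    incStep p.2.1 p.2.2) := by
  have h1 : Poly (fun p : List Bool × (Bool × List Bool) × Bool => p.2.1.1) :=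
    Poly.fst (Poly.fst (Poly.snd Poly.id))
  have h2 : Poly (fun p : List Bool × (Bool × List Bool) × Bool => p.2.1.2) :=
    Poly.snd (Poly.fst (Poly.snd Poly.id))
  have h3 : Poly (fun p : List Bool × (Bool × List Bool) × Bool => p.2.2) :=
    Poly.snd (Poly.snd Poly.id)
  exact Poly.pair (Poly.and h1 h3) (Poly.cons (Poly.xor h1 h3) h2)

theorem poly_inc : Poly inc := by
  have h : Poly (fun w : List Bool => w.foldl incStep (true, [])) := by
    refine Poly.foldl (l := fun w : List Bool => w) (s := fun _ => (true, ([] : List Bool)))
      (F := fun _ s b => incStep s b) Poly.id (NPC.Poly.const _) poly_incStep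
      (Polynomial.C 4 * Polynomial.X + Polynomial.C 10) ?_
    intro a k hk
    have e1 : (((a.take k).foldl incStep (true, [])).2).length ≤ a.length := by
      rw [foldl_length]
      simp
    have e2 := sz_le_length_mul ((a.take k).foldl incStep (true, [])).2 3
      (fun b _ => sz_bool_le b)
    have e3 := sz_bool_le ((a.take k).foldl incStep (true, [])).1
    have e4 := length_lt_sz a
    have e5 : sz ((a.take k).foldl incStep (true, [])) =
        sz ((a.take k).foldl incStep (true, [])).1 + sz ((a.take k).foldl incStep (true, [])).2
          + 1 := sz_pair _ _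
    change sz ((a.take k).foldl incStep (true, [])) ≤ _
    rw [e5]
    simp only [Polynomial.eval_add, Polynomial.eval_mul, Polynomial.eval_C, Polynomial.eval_X]
    omega
  exact Poly.reverse (Poly.snd h)

/-! ### Binary digits -/

theorem inc_bitsOf : ∀ (n j : ℕ), inc (bitsOf n j) = bitsOf n (j + 1)
  | 0, _ => rfl
  | n + 1, j => by
    rw [bitsOf, bitsOf]
    rcases Nat.mod_two_eq_zero_or_one j with h | h
    · have h1 : (j % 2 == 1) = false := by rw [h]; rfl
      have h2 : ((j + 1) % 2 == 1) = true := by
        have : (j + 1) % 2 = 1 := by omega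
        rw [this]; rfl
      have h3 : (j + 1) / 2 = j / 2 := by omega
      rw [h1, h2, h3, inc_false]
    · have h1 : (j % 2 == 1) = true := by rw [h]; rfl
      have h2 : ((j + 1) % 2 == 1) = false := by
        have : (j + 1) % 2 = 0 := by omega
        rw [this]; rfl
      have h3 : (j + 1) / 2 = j / 2 + 1 := by omega
      rw [h1, h2, h3, inc_true, inc_bitsOf n (j / 2)]

theorem len_bitsOf : ∀ (n j : ℕ), (bitsOf n j).length = n
  | 0, _ => rfl
  | n + 1, j => by rw [bitsOf, List.length_cons, len_bitsOf n]

theorem bitsOf_eq_zero : ∀ (n j : ℕ), bitsOf n j = List.replicate n false ↔ j % 2 ^ n = 0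
  | 0, j => by simp [bitsOf, Nat.mod_one]
  | n + 1, j => by
    rw [bitsOf, List.replicate_succ, List.cons.injEq, bitsOf_eq_zero n (j / 2)]
    have h : j % 2 ^ (n + 1) = j % 2 + 2 * ((j / 2) % 2 ^ n) := by
      rw [pow_succ, mul_comm, Nat.mod_mul]
    rw [h]
    constructor
    · rintro ⟨h1, h2⟩
      have : j % 2 ≠ 1 := by
        intro h3
        rw [h3] at h1
        simp at h1
      omega
    · intro h1
      have h2 : j % 2 = 0 := by omega
      refine ⟨by rw [h2]; rfl, by omega⟩

/-! ### The algorithm -/

/-- the zeros -/
def zeros (x : List Bool) : List Bool := x.map (fun _ => false)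

theorem zeros_eq (x : List Bool) : zeros x = List.replicate x.length false := by
  unfold zeros
  rw [List.map_const']

theorem poly_zeros : Poly zeros :=
  NPC.Poly.map (l := fun x : List Bool => x) (F := fun _ _ => false) Poly.id (NPC.Poly.const false)

/-- the next action -/
def act (y : List Bool) : List Bool :=
  match (unpair y).2 with
  | [] => false :: ((unpair y).1 ++ zeros (unpair y).1)
  | c :: t => bif c then false :: ((unpair y).1 ++ t.tail) else true :: t

/-- the new content of the memory, given the parity so far and the string just asked -/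
def upd (x : List Bool) (b : Bool) (w : List Bool) : List Bool :=
  if inc w = zeros x then [false, b] else true :: b :: inc w

/-- the new content of the memory -/
def next (y : List Bool) : List Bool :=
  match (unpair y).2.tail with
  | [] => upd (unpair y).1 ((unpair y).2.head?.getD false) (zeros (unpair y).1)
  | _ :: t => upd (unpair y).1 (((unpair y).2.head?.getD false) ^^ (t.head?.getD false)) t.tail

theorem act_pair (x s : List Bool) : act (pairBits x s) =
    match s with
    | [] => false :: (x ++ zeros x)
    | c :: t => bif c then false :: (x ++ t.tail) else true :: t := by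
  unfold act
  rw [unpair_pairBits]

theorem next_pair (x s : List Bool) (b : Bool) : next (pairBits x (b :: s)) =
    match s with
    | [] => upd x b (zeros x)
    | _ :: t => upd x (b ^^ (t.head?.getD false)) t.tail := by
  unfold next
  rw [unpair_pairBits]
  rfl

theorem poly_fst : Poly (fun y => (unpair y).1) := Poly.fst poly_unpair

theorem poly_snd : Poly (fun y => (unpair y).2) := Poly.snd poly_unpair

theorem poly_act : Poly act := by
  refine (Poly.listCases (l := fun y => (unpair y).2)
    (g := fun y => false :: ((unpair y).1 ++ zeros (unpair y).1))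
    (h := fun y c t => bif c then false :: ((unpair y).1 ++ t.tail) else true :: t)
    poly_snd ?_ ?_).congr fun y => by
      unfold act
      cases (unpair y).2 <;> rfl
  · exact Poly.cons (NPC.Poly.const false) (Poly.append poly_fst (poly_zeros.comp poly_fst))
  · refine Poly.cond (Poly.fst (Poly.snd Poly.id)) (Poly.cons (NPC.Poly.const false)
      (Poly.append (poly_fst.comp (Poly.fst Poly.id)) (Poly.tail (Poly.snd (Poly.snd Poly.id)))))
      (Poly.cons (NPC.Poly.const true) (Poly.snd (Poly.snd Poly.id)))

theorem poly_headD {α : Type} [TEnc α] {l : α → List Bool} (hl : Poly l) :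
    Poly (fun a => ((l a).head?).getD false) := by
  refine (Poly.optCases (o := fun a => (l a).head?) (g := fun _ => false) (h := fun _ b => b)
    (Poly.head? hl) (NPC.Poly.const false) (Poly.snd Poly.id)).congr fun a => ?_
  cases (l a).head? <;> rfl

theorem poly_upd {α : Type} [TEnc α] {x w : α → List Bool} {b : α → Bool} (hx : Poly x)
    (hb : Poly b) (hw : Poly w) : Poly (fun a => upd (x a) (b a) (w a)) := by
  have hi : Poly (fun a => inc (w a)) := poly_inc.comp hw
  exact Poly.ite (Poly.decide_eq hi (poly_zeros.comp hx))
    (Poly.cons (NPC.Poly.const false) (Poly.cons hb (NPC.Poly.const [])))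
    (Poly.cons (NPC.Poly.const true) (Poly.cons hb hi))

theorem poly_next : Poly next := by
  refine (Poly.listCases (l := fun y => (unpair y).2.tail)
    (g := fun y => upd (unpair y).1 ((unpair y).2.head?.getD false) (zeros (unpair y).1))
    (h := fun y _ t => upd (unpair y).1
      (((unpair y).2.head?.getD false) ^^ (t.head?.getD false)) t.tail)
    (Poly.tail poly_snd) ?_ ?_).congr fun y => by
      unfold next
      cases (unpair y).2.tail <;> rfl
  · exact poly_upd poly_fst (poly_headD poly_snd) (poly_zeros.comp poly_fst)
  · exact poly_upd (poly_fst.comp (Poly.fst Poly.id))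
      (Poly.xor ((poly_headD poly_snd).comp (Poly.fst Poly.id))
        (poly_headD (Poly.snd (Poly.snd Poly.id)))) (Poly.tail (Poly.snd (Poly.snd Poly.id)))

/-- the algorithm -/
def alg : SAlg where
  act := act
  act_poly := polyTime_of_poly_list poly_act
  next := next
  next_poly := polyTime_of_poly_list poly_next

/-! ### The contents of the memory -/

/-- the parity of the first `j` answers -/
def parity (A : Oracle) (x : List Bool) (j : ℕ) : Bool :=
  decide (Odd ((Finset.range j).filter (fun i => A (x ++ bitsOf x.length i) = true)).card)

theorem parity_zero (A : Oracle) (x : List Bool) : parity A x 0 = false := by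
  simp [parity]

theorem parity_succ (A : Oracle) (x : List Bool) (j : ℕ) :
    parity A x (j + 1) = (A (x ++ bitsOf x.length j) ^^ parity A x j) := by
  unfold parity
  rw [Finset.range_add_one, Finset.filter_insert]
  cases h : A (x ++ bitsOf x.length j)
  · simp
  · rw [if_pos rfl, Finset.card_insert_of_notMem (by simp), Bool.true_xor, ← decide_not,
      decide_eq_decide, Nat.odd_add_one]

/-- the content of the memory after `j` rounds -/
def cont (A : Oracle) (x : List Bool) (j : ℕ) : List Bool :=
  if j = 0 then [] else if j < 2 ^ x.length then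
    true :: parity A x j :: bitsOf x.length j else [false, parity A x j]

theorem act_cont (A : Oracle) (x : List Bool) {j : ℕ} (hj : j < 2 ^ x.length) :
    act (pairBits x (cont A x j)) = false :: (x ++ bitsOf x.length j) := by
  rw [act_pair]
  unfold cont
  by_cases h : j = 0
  · subst h
    rw [if_pos rfl]
    simp only
    rw [zeros_eq, (bitsOf_eq_zero x.length 0).2 (Nat.zero_mod _)]
  · rw [if_neg h, if_pos hj]
    simp

theorem upd_eq (A : Oracle) (x : List Bool) {j : ℕ} (hj : j < 2 ^ x.length) :
    upd x (A (x ++ bitsOf x.length j) ^^ parity A x j) (bitsOf x.length j) =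
      cont A x (j + 1) := by
  unfold upd cont
  rw [inc_bitsOf, zeros_eq, ← parity_succ, if_neg (Nat.succ_ne_zero j)]
  simp only [bitsOf_eq_zero]
  by_cases h : j + 1 < 2 ^ x.length
  · rw [if_pos h, if_neg]
    rw [Nat.mod_eq_of_lt h]
    omega
  · have h1 : j + 1 = 2 ^ x.length := by omega
    rw [if_neg h, if_pos]
    rw [h1, Nat.mod_self]

theorem next_cont (A : Oracle) (x : List Bool) {j : ℕ} (hj : j < 2 ^ x.length) :
    next (pairBits x (A (x ++ bitsOf x.length j) :: cont A x j)) = cont A x (j + 1) := by
  rw [next_pair, ← upd_eq A x hj]
  by_cases h : j = 0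
  · subst h
    rw [cont, if_pos rfl]
    simp only
    rw [zeros_eq, ← (bitsOf_eq_zero x.length 0).2 (Nat.zero_mod _), parity_zero, Bool.xor_false]
  · rw [cont, if_neg h, if_pos hj]
    simp

theorem act_last (A : Oracle) (x : List Bool) :
    act (pairBits x (cont A x (2 ^ x.length))) = [true, parity A x (2 ^ x.length)] := by
  rw [act_pair]
  unfold cont
  rw [if_neg (by positivity), if_neg (lt_irrefl _)]
  rfl

theorem reach_cont (A : Oracle) (x : List Bool) : ∀ j, j ≤ 2 ^ x.length →
    alg.Reach A x (cont A x j)
  | 0, _ => by
    have h : cont A x 0 = [] := if_pos rfl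
    rw [h]
    exact SAlg.Reach.start
  | j + 1, h => by
    have h1 := reach_cont A x j (by omega)
    have h2 := SAlg.Reach.step h1 (q := x ++ bitsOf x.length j)
      (act_cont A x (Nat.lt_of_succ_le h))
    have h3 : alg.next (pairBits x (A (x ++ bitsOf x.length j) :: cont A x j)) =
      cont A x (j + 1) := next_cont A x (Nat.lt_of_succ_le h)
    rw [h3] at h2
    exact h2

theorem cont_of_reach (A : Oracle) (x : List Bool) {s : List Bool} (h : alg.Reach A x s) :
    ∃ j, j ≤ 2 ^ x.length ∧ s = cont A x j := by
  induction h with
  | start => exact ⟨0, Nat.zero_le _, (if_pos rfl).symm⟩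
  | step h1 h2 ih =>
    obtain ⟨j, hj, rfl⟩ := ih
    change act (pairBits x (cont A x j)) = _ at h2
    rcases Nat.lt_or_ge j (2 ^ x.length) with h | h
    · rw [act_cont A x h] at h2
      rw [List.cons.injEq] at h2
      refine ⟨j + 1, h, ?_⟩
      rw [← next_cont A x h, h2.2]
      rfl
    · have h3 : j = 2 ^ x.length := le_antisymm hj h
      rw [h3, act_last] at h2
      simp at h2

theorem length_cont (A : Oracle) (x : List Bool) (j : ℕ) :
    (cont A x j).length ≤ x.length + 2 := by
  unfold cont
  split_ifs
  · simp
  · simp [len_bitsOf]
  · simp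

end PTask

theorem parLang_pspace (A : Oracle) : IsPSPACE A (parLang A) := by
  refine ⟨PTask.alg, Polynomial.X + Polynomial.C 2, fun x => ⟨fun s hs => ?_, ?_⟩⟩
  · obtain ⟨j, -, rfl⟩ := PTask.cont_of_reach A x hs
    simpa using PTask.length_cont A x j
  · refine ⟨PTask.cont A x (2 ^ x.length), [PTask.parity A x (2 ^ x.length)],
      PTask.reach_cont A x _ le_rfl, PTask.act_last A x, ?_⟩
    simp [parLang, PTask.parity]

end Pool.Agent.H620R2.Gauge
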